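import Mathlib

set_option autoImplicit false

namespace Pool.Agent.Results.MP_4d58d7_an.NoRelErr

open MeasureTheory Matrix

/-- Squared Euclidean norm of a vector. -/
def sqn {m : ℕ} (x : Fin m → ℝ) : ℝ := ∑ i, x i ^ 2

/-- Frobenius norm of a matrix. -/
noncomputable def frob {m p : ℕ} (M : Matrix (Fin m) (Fin p) ℝ) : ℝ :=
  Real.sqrt (∑ i, ∑ j, M i j ^ 2)

/-- `Ω` is an oblivious subspace injection of dimension `r`, injectivity `α`, failure
probability `δ`. -/
structure IsOSI {S : Type} [MeasurableSpace S] (μ : Measure S) {n k : ℕ}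
    (Ω : S → Matrix (Fin n) (Fin k) ℝ) (r : ℕ) (α δ : ℝ) : Prop where
  measurable : ∀ i j, Measurable fun s => Ω s i j
  integrable : ∀ x : Fin n → ℝ, Integrable (fun s => sqn ((Ω s)ᵀ *ᵥ x)) μ
  isotropy : ∀ x : Fin n → ℝ, ∫ s, sqn ((Ω s)ᵀ *ᵥ x) ∂μ = sqn x
  injectivity : ∀ V : Submodule ℝ (Fin n → ℝ), Module.finrank ℝ V = r →
    ENNReal.ofReal (1 - δ) ≤ μ {s | ∀ x ∈ V, α * sqn x ≤ sqn ((Ω s)ᵀ *ᵥ x)}

/-- `P` is the Moore-Penrose pseudoinverse of `M`. -/
def IsPinv {m p : ℕ} (M : Matrix (Fin m) (Fin p) ℝ) (P : Matrix (Fin p) (Fin m) ℝ) : Prop :=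
  M * P * M = M ∧ P * M * P = P ∧ (M * P)ᵀ = M * P ∧ (P * M)ᵀ = P * M

/-- `OPT`: the infimum of `‖A X - B‖_F` over all `X`. -/
noncomputable def OPT {n d p : ℕ} (A : Matrix (Fin n) (Fin d) ℝ) (B : Matrix (Fin n) (Fin p) ℝ) :
    ℝ :=
  ⨅ X : Matrix (Fin d) (Fin p) ℝ, frob (A * X - B)

/-! ### The example -/

noncomputable def pp (a b : ℝ) : ℝ := (Real.sqrt (a + b) + Real.sqrt (a - b)) / 2
noncomputable def qq (a b : ℝ) : ℝ := (Real.sqrt (a + b) - Real.sqrt (a - b)) / 2

lemma pp_qq_sq {a b : ℝ} (h1 : 0 ≤ a + b) (h2 : 0 ≤ a - b) : pp a b ^ 2 + qq a b ^ 2 = a := by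
  unfold pp qq
  have e1 := Real.sq_sqrt h1
  have e2 := Real.sq_sqrt h2
  nlinarith

lemma pp_qq_mul {a b : ℝ} (h1 : 0 ≤ a + b) (h2 : 0 ≤ a - b) : 2 * (pp a b * qq a b) = b := by
  unfold pp qq
  have e1 := Real.sq_sqrt h1
  have e2 := Real.sq_sqrt h2
  nlinarith

/-- The three values of the sketch. -/
noncomputable def Om (p q : ℝ) (s : Fin 3) : Matrix (Fin 2) (Fin 2) ℝ :=
  match s with
  | 0 => 0
  | 1 => !![p, q; q, p]
  | 2 => !![p, -q; -q, p]

/-- The probability on three points. -/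
noncomputable def mu (δ : ℝ) : Measure (Fin 3) :=
  ENNReal.ofReal δ • Measure.dirac 0 + (ENNReal.ofReal ((1 - δ) / 2) • Measure.dirac 1
    + ENNReal.ofReal ((1 - δ) / 2) • Measure.dirac 2)

lemma isProb {δ : ℝ} (h0 : 0 < δ) (h1 : δ < 1) : IsProbabilityMeasure (mu δ) := by
  constructor
  simp only [mu, Measure.coe_add, Pi.add_apply, Measure.smul_apply, measure_univ, smul_eq_mul,
    mul_one]
  rw [← ENNReal.ofReal_add (by linarith) (by linarith), ← ENNReal.ofReal_add h0.le (by linarith)]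
  rw [show δ + ((1 - δ) / 2 + (1 - δ) / 2) = 1 by ring, ENNReal.ofReal_one]

lemma integral_mu {δ : ℝ} (h0 : 0 < δ) (h1 : δ < 1) (f : Fin 3 → ℝ) :
    ∫ s, f s ∂(mu δ) = δ * f 0 + ((1 - δ) / 2 * f 1 + (1 - δ) / 2 * f 2) := by
  unfold mu
  rw [integral_add_measure, integral_add_measure, integral_smul_measure, integral_smul_measure,
    integral_smul_measure, integral_dirac, integral_dirac, integral_dirac,
    ENNReal.toReal_ofReal h0.le, ENNReal.toReal_ofReal (by linarith)]
  · simp
  · exact Integrable.of_finite.smul_measure ENNReal.ofReal_ne_top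
  · exact Integrable.of_finite.smul_measure ENNReal.ofReal_ne_top
  · exact Integrable.of_finite.smul_measure ENNReal.ofReal_ne_top
  · exact (Integrable.of_finite.smul_measure ENNReal.ofReal_ne_top).add_measure
      (Integrable.of_finite.smul_measure ENNReal.ofReal_ne_top)

lemma frob_sq_two (x y : ℝ) : frob (!![x; y] : Matrix (Fin 2) (Fin 1) ℝ) = Real.sqrt (x ^ 2 + y ^ 2) := by
  unfold frob
  simp [Fin.sum_univ_two]

theorem result : ∀ δ : ℝ, 0 < δ → δ < 1 → ∀ C : ℝ,
    ∃ (n d p k : ℕ) (ε : ℝ) (A : Matrix (Fin n) (Fin d) ℝ) (B : Matrix (Fin n) (Fin p) ℝ),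
      0 < n ∧ 0 < d ∧ 0 < p ∧ 0 < k ∧ 0 < ε ∧ ε < 1 ∧ A.rank = d ∧
      ∃ (μ : Measure (Fin 3)) (Ω : Fin 3 → Matrix (Fin n) (Fin k) ℝ),
        IsProbabilityMeasure μ ∧ IsOSI μ Ω d (1 - ε) δ ∧
        ∀ᵐ s ∂μ, ∃ P : Matrix (Fin d) (Fin k) ℝ, IsPinv ((Ω s)ᵀ * A) P ∧
          (1 + C * ε) * OPT A B < frob (A * (P * ((Ω s)ᵀ * B)) - B) := by
  intro δ hδ0 hδ1 C
  -- choice of `ε`
  obtain ⟨ε, hε0, hε1, hCε⟩ : ∃ ε : ℝ, 0 < ε ∧ ε < 1 ∧ (1 + |C| * ε) ^ 2 < 1 + δ ^ 2 := by
    have hC : 0 ≤ |C| := abs_nonneg C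
    refine ⟨δ ^ 2 / (4 * (|C| + 1)), by positivity, ?_, ?_⟩
    · rw [div_lt_one (by positivity)]
      nlinarith
    · have h1 : |C| * (δ ^ 2 / (4 * (|C| + 1))) ≤ δ ^ 2 / 4 := by
        rw [mul_div_assoc', div_le_div_iff₀ (by positivity) (by norm_num)]
        nlinarith [sq_nonneg δ, mul_nonneg hC (sq_nonneg δ)]
      have h2 : 0 ≤ |C| * (δ ^ 2 / (4 * (|C| + 1))) := by positivity
      have h3 : δ ^ 2 < 1 := by nlinarith
      have h4 : 0 < δ ^ 2 := by positivity
      nlinarith
  set a : ℝ := 1 / (1 - δ) with ha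
  set b : ℝ := a - (1 - ε) with hb
  have h1δ : 0 < 1 - δ := by linarith
  have ha1 : 1 < a := by rw [ha, lt_div_iff₀ h1δ]; linarith
  have haδ : (1 - δ) * a = 1 := by rw [ha]; field_simp
  have hb0 : 0 < b := by rw [hb]; linarith
  have hab : a - b = 1 - ε := by rw [hb]; ring
  have hba : δ < b / a := by
    rw [lt_div_iff₀ (by linarith)]
    nlinarith
  set u := pp a b with hu
  set v := qq a b with hv
  have huv1 : u ^ 2 + v ^ 2 = a := pp_qq_sq (by linarith) (by linarith)
  have huv2 : 2 * (u * v) = b := pp_qq_mul (by linarith) (by linarith)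
  have hform1 : ∀ x : Fin 2 → ℝ, sqn ((Om u v 1)ᵀ *ᵥ x) = a * sqn x + 2 * b * (x 0 * x 1) := by
    intro x
    simp only [sqn, Om, Matrix.mulVec, dotProduct, Fin.sum_univ_two, Matrix.transpose_apply]
    simp
    rw [← huv1, ← huv2]
    ring
  have hform2 : ∀ x : Fin 2 → ℝ, sqn ((Om u v 2)ᵀ *ᵥ x) = a * sqn x - 2 * b * (x 0 * x 1) := by
    intro x
    simp only [sqn, Om, Matrix.mulVec, dotProduct, Fin.sum_univ_two, Matrix.transpose_apply]
    simp
    rw [← huv1, ← huv2]
    ring
  have hform0 : ∀ x : Fin 2 → ℝ, sqn ((Om u v 0)ᵀ *ᵥ x) = 0 := by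
    intro x
    simp [sqn, Om]
  have hsq2 : ∀ x : Fin 2 → ℝ, sqn x = x 0 ^ 2 + x 1 ^ 2 := by
    intro x; simp [sqn, Fin.sum_univ_two]
  set A : Matrix (Fin 2) (Fin 1) ℝ := !![1; 0] with hA
  set B : Matrix (Fin 2) (Fin 1) ℝ := !![1; 1] with hB
  have hOPT : OPT A B ≤ 1 := by
    have hbdd : BddBelow (Set.range fun X : Matrix (Fin 1) (Fin 1) ℝ => frob (A * X - B)) :=
      ⟨0, by rintro _ ⟨X, rfl⟩; exact Real.sqrt_nonneg _⟩
    refine (ciInf_le hbdd !![1]).trans ?_
    simp [frob, hA, hB, Fin.sum_univ_two, Matrix.mul_apply]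
  have hOPT0 : 0 ≤ OPT A B := Real.iInf_nonneg fun X => Real.sqrt_nonneg _
  have hfinal : ∀ t : ℝ, 1 + δ ^ 2 ≤ t → (1 + C * ε) * OPT A B < Real.sqrt t := by
    intro t ht
    have h1 : (1 + C * ε) * OPT A B ≤ 1 + |C| * ε := by
      have h2 : C * ε ≤ |C| * ε := mul_le_mul_of_nonneg_right (le_abs_self C) hε0.le
      have h3 : 0 ≤ |C| * ε := mul_nonneg (abs_nonneg C) hε0.le
      nlinarith
    have h4 : 1 + |C| * ε < Real.sqrt t := by
      apply Real.lt_sqrt_of_sq_lt
      linarith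
    linarith
  refine ⟨2, 1, 1, 2, ε, A, B, by norm_num, by norm_num, by norm_num, by norm_num, hε0, hε1,
    ?_, mu δ, Om u v, isProb hδ0 hδ1, ?_, ?_⟩
  · -- rank
    apply le_antisymm (Matrix.rank_le_width A)
    rw [Nat.one_le_iff_ne_zero]
    intro h
    have h2 : A.mulVecLin = 0 := by
      rw [Matrix.rank] at h
      rw [← LinearMap.range_eq_bot]
      exact Submodule.finrank_eq_zero.mp h
    have h3 := congrFun (LinearMap.congr_fun h2 (fun _ => 1)) 0
    simp [hA, Matrix.mulVec, dotProduct] at h3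
  · -- OSI
    haveI := isProb hδ0 hδ1
    refine ⟨fun i j => measurable_from_top, fun x => Integrable.of_finite, ?_, ?_⟩
    · intro x
      rw [integral_mu hδ0 hδ1, hform0, hform1, hform2]
      have : δ * 0 + ((1 - δ) / 2 * (a * sqn x + 2 * b * (x 0 * x 1)) +
          (1 - δ) / 2 * (a * sqn x - 2 * b * (x 0 * x 1))) = ((1 - δ) * a) * sqn x := by ring
      rw [this, haδ, one_mul]
    · intro V _
      have hsub : ({1, 2} : Set (Fin 3)) ⊆
          {s | ∀ x ∈ V, (1 - ε) * sqn x ≤ sqn ((Om u v s)ᵀ *ᵥ x)} := by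
        intro s hs x _
        rcases hs with rfl | rfl
        · rw [hform1, ← hab, hsq2]
          nlinarith [sq_nonneg (x 0 + x 1)]
        · rw [hform2, ← hab, hsq2]
          nlinarith [sq_nonneg (x 0 - x 1)]
      refine le_trans ?_ (measure_mono hsub)
      have h12 : (mu δ) ({1, 2} : Set (Fin 3)) = ENNReal.ofReal (1 - δ) := by
        simp only [mu, Measure.coe_add, Pi.add_apply, Measure.smul_apply, smul_eq_mul]
        rw [Measure.dirac_apply, Measure.dirac_apply, Measure.dirac_apply]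
        simp
        rw [← ENNReal.ofReal_add (by linarith) (by linarith)]
        congr 1
        ring
      rw [h12]
  · -- the bound fails
    refine Filter.Eventually.of_forall fun s => ?_
    have hane : a ≠ 0 := by linarith
    fin_cases s
    · refine ⟨0, ?_, ?_⟩
      · simp [IsPinv, Om]
      · have : frob (A * ((0 : Matrix (Fin 1) (Fin 2) ℝ) * ((Om u v 0)ᵀ * B)) - B) =
            Real.sqrt 2 := by
          simp [frob, hB, Fin.sum_univ_two]
          norm_num
        show _ < frob (A * ((0 : Matrix (Fin 1) (Fin 2) ℝ) * ((Om u v 0)ᵀ * B)) - B)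
        rw [this]
        exact hfinal 2 (by nlinarith)
    · refine ⟨!![u / a, v / a], ?_, ?_⟩
      · have e1 : (Om u v 1)ᵀ * A = !![u; v] := by
          ext i j; fin_cases i <;> fin_cases j <;> simp [Om, hA, Matrix.mul_apply, Fin.sum_univ_two]
        have e2 : (!![u / a, v / a] : Matrix (Fin 1) (Fin 2) ℝ) * !![u; v] = 1 := by
          ext i j; fin_cases i; fin_cases j
          simp [Matrix.mul_apply, Fin.sum_univ_two]
          field_simp
          linarith
        show IsPinv ((Om u v 1)ᵀ * A) _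
        rw [e1]
        refine ⟨?_, ?_, ?_, ?_⟩
        · rw [Matrix.mul_assoc, e2, Matrix.mul_one]
        · rw [e2, Matrix.one_mul]
        · ext i j; fin_cases i <;> fin_cases j <;>
            simp [Matrix.mul_apply, Matrix.transpose_apply] <;> ring
        · rw [e2, Matrix.transpose_one]
      · have : frob (A * (!![u / a, v / a] * ((Om u v 1)ᵀ * B)) - B) =
            Real.sqrt (1 + (b / a) ^ 2) := by
          have e3 : (Om u v 1)ᵀ * B = !![u + v; v + u] := by
            ext i j; fin_cases i <;> fin_cases j <;>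
              simp [Om, hB, Matrix.mul_apply, Fin.sum_univ_two]
          have e4 : (!![u / a, v / a] : Matrix (Fin 1) (Fin 2) ℝ) * !![u + v; v + u] =
              !![1 + b / a] := by
            ext i j; fin_cases i; fin_cases j
            simp [Matrix.mul_apply, Fin.sum_univ_two]
            field_simp
            nlinarith
          have h : A * (!![u / a, v / a] * ((Om u v 1)ᵀ * B)) - B = !![b / a; -1] := by
            rw [e3, e4]
            ext i j; fin_cases i <;> fin_cases j <;> simp [hA, hB, Matrix.mul_apply]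
          rw [h, frob_sq_two]
          congr 1
          ring
        show _ < frob (A * (!![u / a, v / a] * ((Om u v 1)ᵀ * B)) - B)
        rw [this]
        apply hfinal
        nlinarith
    · refine ⟨!![u / a, -v / a], ?_, ?_⟩
      · have e1 : (Om u v 2)ᵀ * A = !![u; -v] := by
          ext i j; fin_cases i <;> fin_cases j <;> simp [Om, hA, Matrix.mul_apply, Fin.sum_univ_two]
        have e2 : (!![u / a, -v / a] : Matrix (Fin 1) (Fin 2) ℝ) * !![u; -v] = 1 := by
          ext i j; fin_cases i; fin_cases j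
          simp [Matrix.mul_apply, Fin.sum_univ_two]
          field_simp
          linarith
        show IsPinv ((Om u v 2)ᵀ * A) _
        rw [e1]
        refine ⟨?_, ?_, ?_, ?_⟩
        · rw [Matrix.mul_assoc, e2, Matrix.mul_one]
        · rw [e2, Matrix.one_mul]
        · ext i j; fin_cases i <;> fin_cases j <;>
            simp [Matrix.mul_apply, Matrix.transpose_apply] <;> ring
        · rw [e2, Matrix.transpose_one]
      · have : frob (A * (!![u / a, -v / a] * ((Om u v 2)ᵀ * B)) - B) =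
            Real.sqrt (1 + (b / a) ^ 2) := by
          have e3 : (Om u v 2)ᵀ * B = !![u - v; -v + u] := by
            ext i j; fin_cases i <;> fin_cases j <;>
              simp [Om, hB, Matrix.mul_apply, Fin.sum_univ_two] <;> ring
          have e4 : (!![u / a, -v / a] : Matrix (Fin 1) (Fin 2) ℝ) * !![u - v; -v + u] =
              !![1 - b / a] := by
            ext i j; fin_cases i; fin_cases j
            simp [Matrix.mul_apply, Fin.sum_univ_two]
            field_simp
            nlinarith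
          have h : A * (!![u / a, -v / a] * ((Om u v 2)ᵀ * B)) - B = !![-(b / a); -1] := by
            rw [e3, e4]
            ext i j; fin_cases i <;> fin_cases j <;> simp [hA, hB, Matrix.mul_apply]
          rw [h, frob_sq_two]
          congr 1
          ring
        show _ < frob (A * (!![u / a, -v / a] * ((Om u v 2)ᵀ * B)) - B)
        rw [this]
        apply hfinal
        nlinarith

end Pool.Agent.Results.MP_4d58d7_an.NoRelErr
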